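import Pool.Agent.helper23.F2.Spec

set_option autoImplicit false

open scoped BigOperators

namespace Pool.Agent.F2

open Pool.Agent.helper23.TH

theorem AL8 (hSEL : Pool.Agent.IV.SEL_stmt) (hWK5 : WK5_stmt) : AL8_stmt := by
  classical
  intro V L _ b s G t q H φ F hstr hcard
  -- the families, in the right direction
  have hfam : ∀ e : H.E, ∃ Q : Fin q → Fin (t + 1) → V,
      (∀ i, Wk G.A t (Q i) ∧ Q i 0 = φ (.inl (H.ed e).1) ∧
        Q i (Fin.last t) = φ (.inl (H.ed e).2) ∧ G.Cln (Q i)) ∧
      ∀ i j, i ≠ j → ∀ o o' : Ob t, Inn o → Inn o' → Disjoint (G.obj (Q i) o) (G.obj (Q j) o') := by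
    intro e
    rcases hstr e with h | h
    · obtain ⟨Q, h1, h2⟩ := h
      exact ⟨Q, h1, h2⟩
    · obtain ⟨Q, h1, h2⟩ := h
      refine ⟨fun i x => Q i x.rev, ?_, ?_⟩
      · intro i
        obtain ⟨a1, a2, a3, a4⟩ := h1 i
        obtain ⟨w1, w2, w3, w4⟩ := hWK5 V L b s G t (Q i)
        refine ⟨w1 a1, ?_, ?_, w4 a4⟩
        · simp only [Fin.rev_zero]
          exact a3
        · simp only [Fin.rev_last]
          exact a2
      · intro i j hij o o' ho ho'
        have key : ∀ (k : Fin q) (o : Ob t), Inn o → ∃ o1 : Ob t, Inn o1 ∧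
            G.obj (fun x => Q k x.rev) o = G.obj (Q k) o1 ∧
            ∀ k' : Fin q, G.obj (fun x => Q k' x.rev) o = G.obj (Q k') o1 := by
          intro k o ho
          rcases o with x | y
          · refine ⟨.inl x.rev, ?_, (hWK5 V L b s G t (Q k)).2.1 x, fun k' => (hWK5 V L b s G t (Q k')).2.1 x⟩
            constructor
            · intro h
              apply ho.2
              have h' : x.rev = 0 := Sum.inl.inj h
              have h3 : x = Fin.last t := by
                rw [← Fin.rev_rev x, h', Fin.rev_zero]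
              rw [h3]
            · intro h
              apply ho.1
              have h' : x.rev = Fin.last t := Sum.inl.inj h
              have h3 : x = 0 := by
                rw [← Fin.rev_rev x, h', Fin.rev_last]
              rw [h3]
          · exact ⟨.inr y.rev, ⟨by simp, by simp⟩, (hWK5 V L b s G t (Q k)).2.2.1 y,
              fun k' => (hWK5 V L b s G t (Q k')).2.2.1 y⟩
        obtain ⟨o1, b1, b2, _⟩ := key i o ho
        obtain ⟨o2, c1, c2, _⟩ := key j o' ho'
        show Disjoint (G.obj (fun x => Q i x.rev) o) (G.obj (fun x => Q j x.rev) o')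
        rw [b2, c2]
        exact h2 i j hij o1 o2 b1 c1
  choose Qs hQ1 hQ2 using hfam
  let en := Fintype.equivFin H.E
  let tok : Fin (Fintype.card H.E) → Fin q → Finset L := fun i j =>
    (Finset.univ.filter fun o : Ob t => Inn o).biUnion fun o => G.obj (Qs (en.symm i) j) o
  have hobj : ∀ (P : Fin (t + 1) → V) (o : Ob t), (G.obj P o).card ≤ b := by
    intro P o
    rcases o with x | y
    · exact G.bv _
    · exact G.be _ _
  have htok : ∀ i j, (tok i j).card ≤ (2 * t + 1) * b := by
    intro i j
    refine (Finset.card_biUnion_le_card_mul _ _ b (fun o _ => hobj _ o)).trans ?_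
    refine Nat.mul_le_mul_right b ?_
    refine (Finset.card_filter_le _ _).trans ?_
    rw [Finset.card_univ, Fintype.card_sum, Fintype.card_fin, Fintype.card_fin]
    omega
  have hdis : ∀ i j j', j ≠ j' → Disjoint (tok i j) (tok i j') := by
    intro i j j' hjj
    rw [Finset.disjoint_biUnion_left]
    intro o ho
    rw [Finset.disjoint_biUnion_right]
    intro o' ho'
    rw [Finset.mem_filter] at ho ho'
    exact hQ2 (en.symm i) j j' hjj o o' ho.2 ho'.2
  obtain ⟨J, hJ1, hJ2⟩ := hSEL L (Fintype.card H.E) q F.card ((2 * t + 1) * b) tok (fun _ => F) htok hdis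
    (fun _ => le_rfl) (by
      have : (Fintype.card H.E + 1) * ((2 * t + 1) * b) =
        Fintype.card H.E * ((2 * t + 1) * b) + (2 * t + 1) * b := by ring
      omega)
  have hmem : ∀ (e : H.E) (o : Ob t), Inn o → G.obj (Qs e (J (en e))) o ⊆ tok (en e) (J (en e)) := by
    intro e o ho x hx
    refine Finset.mem_biUnion.mpr ⟨o, Finset.mem_filter.mpr ⟨Finset.mem_univ _, ho⟩, ?_⟩
    rw [Equiv.symm_apply_apply]
    exact hx
  refine ⟨fun e => Qs e (J (en e)), ?_, ?_⟩
  · intro e
    obtain ⟨a1, a2, a3, a4⟩ := hQ1 e (J (en e))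
    refine ⟨a1, a2, a3, a4, ?_⟩
    intro o ho
    exact Finset.disjoint_of_subset_left (hmem e o ho) (hJ1 (en e))
  · intro e e' hee o o' ho ho'
    refine Finset.disjoint_of_subset_left (hmem e o ho) (Finset.disjoint_of_subset_right (hmem e' o' ho') ?_)
    exact hJ2 (en e) (en e') (fun h => hee (en.injective h))

end Pool.Agent.F2
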